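import Pool.Agent.H25.MF.Targets

/-!
# MP_118735_nt, row DO: the dominated Dirichlet polynomial and the correction
-/

set_option autoImplicit false

open Complex MeasureTheory Filter Topology

namespace Pool.Agent.H84.MF

open Pool.Agent.H25.MF

theorem do_norm {a : ℝ} (ha : 0 < a) (z : ℂ) : ‖(a : ℂ) ^ (z + 1 / 2)‖ = √a * a ^ z.re := by
  rw [Complex.norm_cpow_eq_rpow_re_of_pos ha]
  have : (z + 1 / 2).re = 1 / 2 + z.re := by
    simp
    ring
  rw [this, Real.rpow_add ha, Real.sqrt_eq_rpow]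

theorem do_lower {J : Finset ℝ} {c : ℝ → ℝ} {A : ℝ} (h : Dom J c A) (z : ℂ) (hz : 0 ≤ z.re) :
    A ^ z.re * (|c A| * √A - ∑ a ∈ J.erase A, |c a| * √a) ≤ ‖DL J c z‖ := by
  obtain ⟨hA, hpos, -⟩ := h
  have hA0 := (hpos A hA).1
  unfold DL
  rw [← Finset.add_sum_erase J _ hA]
  have h1 : ‖((c A : ℝ) : ℂ) * (A : ℂ) ^ (z + 1 / 2)‖ = A ^ z.re * (|c A| * √A) := by
    rw [norm_mul, do_norm hA0, Complex.norm_real, Real.norm_eq_abs]
    ring
  have h2 : ‖∑ a ∈ J.erase A, ((c a : ℝ) : ℂ) * (a : ℂ) ^ (z + 1 / 2)‖ ≤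
      A ^ z.re * ∑ a ∈ J.erase A, |c a| * √a := by
    rw [Finset.mul_sum]
    refine (norm_sum_le _ _).trans (Finset.sum_le_sum fun a ha => ?_)
    have ha' := hpos a (Finset.mem_of_mem_erase ha)
    rw [norm_mul, do_norm ha'.1, Complex.norm_real, Real.norm_eq_abs]
    have h3 : a ^ z.re ≤ A ^ z.re := Real.rpow_le_rpow ha'.1.le ha'.2 hz
    calc |c a| * (√a * a ^ z.re) = (|c a| * √a) * a ^ z.re := by ring
      _ ≤ (|c a| * √a) * A ^ z.re := mul_le_mul_of_nonneg_left h3 (by positivity)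
      _ = A ^ z.re * (|c a| * √a) := by ring
  have h4 := norm_sub_le_norm_add ((c A : ℂ) * (A : ℂ) ^ (z + 1 / 2))
    (∑ a ∈ J.erase A, ((c a : ℝ) : ℂ) * (a : ℂ) ^ (z + 1 / 2))
  rw [h1] at h4
  rw [mul_sub]
  linarith

theorem do_bound {g : ℝ → ℝ} {B : ℝ} (hB : ∀ v : ℝ, |g v| ≤ B * Real.exp (5 / 8 * |v|)) (b : ℝ)
    (r : ℝ) (z : ℂ) (hz : |z.re| ≤ r) (u : ℝ) (hu : u ∈ Set.uIoc 0 b) :
    ‖(g u : ℂ) * cexp (-(z * u))‖ ≤ |B| * Real.exp ((5 / 8 + r) * |b|) := by
  have hub : |u| ≤ |b| := by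
    rcases le_total 0 b with h | h
    · rw [Set.uIoc_of_le h] at hu
      rw [abs_of_pos hu.1, abs_of_nonneg h]
      exact hu.2
    · rw [Set.uIoc_of_ge h] at hu
      rw [abs_of_nonpos hu.2, abs_of_nonpos h]
      linarith [hu.1]
  have hr : 0 ≤ r := (abs_nonneg _).trans hz
  rw [norm_mul, Complex.norm_real, Real.norm_eq_abs, Complex.norm_exp]
  have h1 : (-(z * (u : ℂ))).re ≤ r * |b| := by
    have : (-(z * (u : ℂ))).re = -(z.re * u) := by simp
    rw [this]
    calc -(z.re * u) ≤ |z.re * u| := neg_le_abs _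
      _ = |z.re| * |u| := abs_mul _ _
      _ ≤ r * |b| := mul_le_mul hz hub (abs_nonneg _) hr
  have h2 : |g u| ≤ |B| * Real.exp (5 / 8 * |b|) := by
    refine (hB u).trans ?_
    calc B * Real.exp (5 / 8 * |u|) ≤ |B| * Real.exp (5 / 8 * |u|) :=
          mul_le_mul_of_nonneg_right (le_abs_self B) (Real.exp_pos _).le
      _ ≤ |B| * Real.exp (5 / 8 * |b|) :=
          mul_le_mul_of_nonneg_left (Real.exp_le_exp.mpr (by linarith)) (abs_nonneg _)
  calc |g u| * Real.exp (-(z * (u : ℂ))).re ≤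
        (|B| * Real.exp (5 / 8 * |b|)) * Real.exp (r * |b|) :=
        mul_le_mul h2 (Real.exp_le_exp.mpr h1) (Real.exp_pos _).le (by positivity)
    _ = |B| * Real.exp ((5 / 8 + r) * |b|) := by
        rw [mul_assoc, ← Real.exp_add]
        congr 2
        ring

theorem do_diff {g : ℝ → ℝ} (hg : Gr g) (b : ℝ) :
    Differentiable ℂ (fun z : ℂ => ∫ u in (0 : ℝ)..b, (g u : ℂ) * cexp (-(z * u))) := by
  obtain ⟨hm, B, hB⟩ := hg
  intro z₀
  set r : ℝ := |z₀.re| + 1 with hr
  have hmeas : ∀ z : ℂ, Measurable (fun u : ℝ => (g u : ℂ) * cexp (-(z * u))) := by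
    intro z
    refine (Complex.measurable_ofReal.comp hm).mul ?_
    exact (by fun_prop : Continuous fun u : ℝ => cexp (-(z * u))).measurable
  have hmeas' : ∀ z : ℂ, Measurable (fun u : ℝ => (g u : ℂ) * (cexp (-(z * u)) * (-(u : ℂ)))) := by
    intro z
    refine (Complex.measurable_ofReal.comp hm).mul ?_
    exact (by fun_prop : Continuous fun u : ℝ => cexp (-(z * u)) * (-(u : ℂ))).measurable
  have hball : ∀ z ∈ Metric.ball z₀ 1, |z.re| ≤ r := by
    intro z hz
    rw [Metric.mem_ball, dist_eq_norm] at hz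
    have h1 : |(z - z₀).re| ≤ ‖z - z₀‖ := Complex.abs_re_le_norm _
    have h2 : |z.re| ≤ |z₀.re| + |(z - z₀).re| := by
      have : z.re = z₀.re + (z - z₀).re := by simp
      rw [this]
      exact abs_add_le _ _
    linarith
  have key := intervalIntegral.hasDerivAt_integral_of_dominated_loc_of_deriv_le
    (μ := volume) (a := (0 : ℝ)) (b := b) (𝕜 := ℂ)
    (F := fun z u => (g u : ℂ) * cexp (-(z * u)))
    (F' := fun z u => (g u : ℂ) * (cexp (-(z * u)) * (-(u : ℂ)))) (x₀ := z₀)
    (s := Metric.ball z₀ 1) (bound := fun _ => |B| * Real.exp ((5 / 8 + r) * |b|) * |b|)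
    (Metric.ball_mem_nhds z₀ one_pos)
    (Eventually.of_forall fun z => (hmeas z).aestronglyMeasurable)
    (by
      rw [intervalIntegrable_iff]
      refine Measure.integrableOn_of_bounded (M := |B| * Real.exp ((5 / 8 + r) * |b|))
        (by simp [Set.uIoc]) (hmeas z₀).aestronglyMeasurable ?_
      refine (ae_restrict_iff' measurableSet_uIoc).mpr (Eventually.of_forall fun u hu => ?_)
      exact do_bound hB b r z₀ (by linarith) u hu)
    (hmeas' z₀).aestronglyMeasurable
    (Eventually.of_forall fun u hu z hz => by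
      have h1 := do_bound hB b r z (hball z hz) u hu
      have hub : |u| ≤ |b| := by
        rcases le_total 0 b with h | h
        · rw [Set.uIoc_of_le h] at hu
          rw [abs_of_pos hu.1, abs_of_nonneg h]
          exact hu.2
        · rw [Set.uIoc_of_ge h] at hu
          rw [abs_of_nonpos hu.2, abs_of_nonpos h]
          linarith [hu.1]
      calc ‖(g u : ℂ) * (cexp (-(z * u)) * (-(u : ℂ)))‖
          = ‖(g u : ℂ) * cexp (-(z * u))‖ * |u| := by
            rw [← mul_assoc, norm_mul, norm_neg, Complex.norm_real, Real.norm_eq_abs]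
        _ ≤ _ := mul_le_mul h1 hub (abs_nonneg _) (by positivity))
    intervalIntegrable_const
    (Eventually.of_forall fun u _ z _ => by
      have h1 : HasDerivAt (fun z : ℂ => -(z * (u : ℂ))) (-(u : ℂ)) z := by
        have h0 : HasDerivAt (fun z : ℂ => z * (u : ℂ)) (u : ℂ) z := by
          simpa using (hasDerivAt_id z).mul_const (u : ℂ)
        exact h0.neg
      exact (h1.cexp).const_mul (g u : ℂ))
  exact key.2.differentiableAt

theorem pf_DO : T_DO := by
  refine ⟨fun J c A h => ?_, fun J c hJ g hg => ?_⟩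
  · have hA0 := (h.2.1 A h.1).1
    set d : ℝ := |c A| * √A - ∑ a ∈ J.erase A, |c a| * √a with hd
    have hd0 : 0 < d := by
      have := h.2.2
      linarith
    refine ⟨fun z hz => ?_, min 1 (A ^ (3 / 4 : ℝ)) * d, by positivity, fun z hz hz2 => ?_⟩
    · have h1 := do_lower h z hz
      have h2 : 0 < A ^ z.re * d := by positivity
      intro h3
      rw [h3, norm_zero] at h1
      linarith
    · refine le_trans ?_ (do_lower h z hz)
      apply mul_le_mul_of_nonneg_right _ hd0.le
      rcases le_total 1 A with h1 | h1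
      · exact (min_le_left _ _).trans (Real.one_le_rpow h1 hz)
      · exact (min_le_right _ _).trans (Real.rpow_le_rpow_of_exponent_ge hA0 h1 hz2)
  · have hd1 : ∀ a ∈ J, Differentiable ℂ (fun z : ℂ => ((c a : ℝ) : ℂ) * (a : ℂ) ^ (z + 1 / 2)) := by
      intro a ha z
      have h0 : (a : ℂ) ≠ 0 := by exact_mod_cast (hJ a ha).ne'
      refine DifferentiableAt.const_mul ?_ _
      exact DifferentiableAt.const_cpow (by fun_prop) (Or.inl h0)
    obtain ⟨hm, B, hB⟩ := id hg
    refine ⟨?_, ?_, ?_⟩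
    · unfold DL
      exact Differentiable.fun_sum hd1
    · unfold JL
      exact Differentiable.fun_sum fun a ha => (hd1 a ha).mul (do_diff hg (Real.log a))
    · have hn : ∀ a ∈ J, ∀ z : ℂ, |z.re| ≤ 1 →
          ‖(a : ℂ) ^ (z + 1 / 2)‖ ≤ √a * (a + a⁻¹) := by
        intro a ha z hz
        have ha0 := hJ a ha
        rw [do_norm ha0]
        apply mul_le_mul_of_nonneg_left _ (Real.sqrt_nonneg _)
        rw [abs_le] at hz
        rcases le_total 1 a with h1 | h1
        · have h2 : a ^ z.re ≤ a ^ (1 : ℝ) := Real.rpow_le_rpow_of_exponent_le h1 hz.2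
          rw [Real.rpow_one] at h2
          have : 0 < a⁻¹ := by positivity
          linarith
        · have h2 : a ^ z.re ≤ a ^ (-1 : ℝ) := Real.rpow_le_rpow_of_exponent_ge ha0 h1 hz.1
          rw [Real.rpow_neg_one] at h2
          linarith
      refine ⟨max (∑ a ∈ J, |c a| * (√a * (a + a⁻¹)))
        (∑ a ∈ J, |c a| * (√a * (a + a⁻¹)) *
          (|B| * Real.exp ((5 / 8 + 1) * |Real.log a|) * |Real.log a - 0|)), fun z hz => ⟨?_, ?_⟩⟩
      · refine le_trans ?_ (le_max_left _ _)
        unfold DL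
        refine (norm_sum_le _ _).trans (Finset.sum_le_sum fun a ha => ?_)
        rw [norm_mul, Complex.norm_real, Real.norm_eq_abs]
        exact mul_le_mul_of_nonneg_left (hn a ha z hz) (abs_nonneg _)
      · refine le_trans ?_ (le_max_right _ _)
        unfold JL
        refine (norm_sum_le _ _).trans (Finset.sum_le_sum fun a ha => ?_)
        rw [norm_mul, norm_mul, Complex.norm_real, Real.norm_eq_abs]
        refine mul_le_mul (mul_le_mul_of_nonneg_left (hn a ha z hz) (abs_nonneg _)) ?_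
          (norm_nonneg _) ?_
        · exact intervalIntegral.norm_integral_le_of_norm_le_const
            fun u hu => do_bound hB (Real.log a) 1 z hz u hu
        · have ha0 := hJ a ha
          positivity

end Pool.Agent.H84.MF
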