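import Pool.Agent.H25.MF.Targets

/-!
# MP_118735_nt, row TC: the transform of a combination
-/

set_option autoImplicit false

open Complex MeasureTheory Filter Topology

namespace Pool.Agent.H84.MF

open Pool.Agent.H25.MF

/-- the integrand -/
noncomputable def tcf (g : ℝ → ℝ) (z : ℂ) (u : ℝ) : ℂ := (g u : ℂ) * cexp (-(z * u))

theorem tcf_meas {g : ℝ → ℝ} (hm : Measurable g) (z : ℂ) : Measurable (tcf g z) := by
  unfold tcf
  refine (Complex.measurable_ofReal.comp hm).mul ?_
  exact (by fun_prop : Continuous fun u : ℝ => cexp (-(z * u))).measurable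

theorem tcf_norm {g : ℝ → ℝ} {B : ℝ} (hB : ∀ v : ℝ, |g v| ≤ B * Real.exp (5 / 8 * |v|)) (z : ℂ)
    (u : ℝ) : ‖tcf g z u‖ ≤ |B| * Real.exp (5 / 8 * |u| - z.re * u) := by
  unfold tcf
  rw [norm_mul, Complex.norm_real, Real.norm_eq_abs, Complex.norm_exp]
  have h1 : (-(z * (u : ℂ))).re = -(z.re * u) := by simp
  rw [h1, sub_eq_add_neg, Real.exp_add, ← mul_assoc]
  apply mul_le_mul_of_nonneg_right _ (Real.exp_pos _).le
  exact (hB u).trans (mul_le_mul_of_nonneg_right (le_abs_self B) (Real.exp_pos _).le)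

theorem tcf_int {g : ℝ → ℝ} (hg : Gr g) (z : ℂ) (a b : ℝ) : IntervalIntegrable (tcf g z) volume a b := by
  obtain ⟨hm, B, hB⟩ := hg
  rw [intervalIntegrable_iff]
  refine Measure.integrableOn_of_bounded
    (M := |B| * Real.exp ((5 / 8 + |z.re|) * (max |a| |b|)))
    (by simp [Set.uIoc]) (tcf_meas hm z).aestronglyMeasurable ?_
  refine (ae_restrict_iff' measurableSet_uIoc).mpr (Eventually.of_forall fun u hu => ?_)
  refine (tcf_norm hB z u).trans ?_
  apply mul_le_mul_of_nonneg_left _ (abs_nonneg _)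
  apply Real.exp_le_exp.mpr
  have hub : |u| ≤ max |a| |b| := by
    have hu' := Set.uIoc_subset_uIcc hu
    exact abs_le_max_abs_abs hu'.1 hu'.2 |>.trans (by
      rcases le_total a b with h | h
      · rw [min_eq_left h, max_eq_right h]
      · rw [min_eq_right h, max_eq_left h, max_comm])
  have h1 : -(z.re * u) ≤ |z.re| * |u| := by
    rw [← abs_mul]
    exact neg_le_abs _
  have h2 : |z.re| * |u| ≤ |z.re| * max |a| |b| := mul_le_mul_of_nonneg_left hub (abs_nonneg _)
  linarith

theorem tcf_Ioi0 {g : ℝ → ℝ} (hg : Gr g) {z : ℂ} (hz : 5 / 8 < z.re) :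
    IntegrableOn (tcf g z) (Set.Ioi 0) := by
  obtain ⟨hm, B, hB⟩ := hg
  have h1 : IntegrableOn (fun u : ℝ => |B| * Real.exp (-(z.re - 5 / 8) * u)) (Set.Ioi 0) :=
    (exp_neg_integrableOn_Ioi 0 (by linarith)).const_mul _
  refine Integrable.mono' h1 (tcf_meas hm z).aestronglyMeasurable ?_
  refine (ae_restrict_iff' measurableSet_Ioi).mpr (Eventually.of_forall fun u hu => ?_)
  refine (tcf_norm hB z u).trans ?_
  apply mul_le_mul_of_nonneg_left _ (abs_nonneg _)
  apply Real.exp_le_exp.mpr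
  rw [abs_of_pos (show (0 : ℝ) < u from hu)]
  linarith

theorem tcf_Iio0 {g : ℝ → ℝ} (hg : Gr g) {z : ℂ} (hz : z.re < -(5 / 8)) :
    IntegrableOn (tcf g z) (Set.Iic 0) := by
  obtain ⟨hm, B, hB⟩ := hg
  have h1 : IntegrableOn (fun u : ℝ => |B| * Real.exp ((-(z.re) - 5 / 8) * u)) (Set.Iic 0) := by
    refine Integrable.const_mul ?_ _
    exact integrableOn_exp_mul_Iic (by linarith) 0
  refine Integrable.mono' h1 (tcf_meas hm z).aestronglyMeasurable ?_
  refine (ae_restrict_iff' measurableSet_Iic).mpr (Eventually.of_forall fun u hu => ?_)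
  refine (tcf_norm hB z u).trans ?_
  apply mul_le_mul_of_nonneg_left _ (abs_nonneg _)
  apply Real.exp_le_exp.mpr
  rw [abs_of_nonpos (show u ≤ 0 from hu)]
  linarith

theorem tcf_Ioi {g : ℝ → ℝ} (hg : Gr g) {z : ℂ} (hz : 5 / 8 < z.re) (b : ℝ) :
    IntegrableOn (tcf g z) (Set.Ioi b) := by
  rcases le_total 0 b with h | h
  · exact (tcf_Ioi0 hg hz).mono_set (Set.Ioi_subset_Ioi h)
  · have h1 := tcf_int hg z b 0
    rw [intervalIntegrable_iff_integrableOn_Ioc_of_le h] at h1
    have h2 := h1.union (tcf_Ioi0 hg hz)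
    rwa [Set.Ioc_union_Ioi_eq_Ioi h] at h2

theorem tcf_Iic {g : ℝ → ℝ} (hg : Gr g) {z : ℂ} (hz : z.re < -(5 / 8)) (b : ℝ) :
    IntegrableOn (tcf g z) (Set.Iic b) := by
  rcases le_total b 0 with h | h
  · exact (tcf_Iio0 hg hz).mono_set (Set.Iic_subset_Iic.mpr h)
  · have h1 := tcf_int hg z 0 b
    rw [intervalIntegrable_iff_integrableOn_Ioc_of_le h] at h1
    have h2 := (tcf_Iio0 hg hz).union h1
    rwa [Set.Iic_union_Ioc_eq_Iic h] at h2

theorem tcf_shift (g : ℝ → ℝ) (z : ℂ) (h v : ℝ) :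
    (g (v + h) : ℂ) * cexp (-(z * v)) = cexp (z * h) * tcf g z (v + h) := by
  unfold tcf
  rw [← mul_assoc, mul_comm (cexp (z * h)), mul_assoc, ← Complex.exp_add]
  congr 2
  push_cast
  ring

theorem tcf_pow {a : ℝ} (ha : 0 < a) (z : ℂ) :
    (√a : ℂ) * cexp (z * (Real.log a : ℝ)) = (a : ℂ) ^ (z + 1 / 2) := by
  have h0 : (a : ℂ) ≠ 0 := by exact_mod_cast ha.ne'
  rw [Complex.cpow_add _ _ h0, mul_comm]
  congr 1
  · rw [Complex.cpow_def_of_ne_zero h0, Complex.ofReal_log ha.le, mul_comm]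
  · rw [Real.sqrt_eq_rpow, Complex.ofReal_cpow ha.le]
    push_cast
    rfl

theorem tc_right {g : ℝ → ℝ} (hg : Gr g) {z : ℂ} (hz : 5 / 8 < z.re) (h : ℝ) :
    IntegrableOn (fun v : ℝ => (g (v + h) : ℂ) * cexp (-(z * v))) (Set.Ioi 0) ∧
    ∫ v in Set.Ioi (0 : ℝ), (g (v + h) : ℂ) * cexp (-(z * v)) =
      cexp (z * h) * ((∫ v in Set.Ioi (0 : ℝ), tcf g z v) - ∫ u in (0 : ℝ)..h, tcf g z u) := by
  have e1 : ∀ v : ℝ, (Set.Ioi (0 : ℝ)).indicator (fun v => tcf g z (v + h)) v =
      (Set.Ioi h).indicator (tcf g z) (v + h) := by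
    intro v
    by_cases hv : 0 < v
    · rw [Set.indicator_of_mem (show v ∈ Set.Ioi 0 from hv),
        Set.indicator_of_mem (show v + h ∈ Set.Ioi h from by simp only [Set.mem_Ioi]; linarith)]
    · rw [Set.indicator_of_notMem (show v ∉ Set.Ioi 0 from hv),
        Set.indicator_of_notMem (show v + h ∉ Set.Ioi h from by
          simp only [Set.mem_Ioi]; linarith)]
  have hi : IntegrableOn (fun v => tcf g z (v + h)) (Set.Ioi 0) := by
    rw [← integrable_indicator_iff measurableSet_Ioi]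
    have h1 : Integrable ((Set.Ioi h).indicator (tcf g z)) :=
      (integrable_indicator_iff measurableSet_Ioi).mpr (tcf_Ioi hg hz h)
    have h2 := h1.comp_add_right h
    exact h2.congr (Eventually.of_forall fun v => (e1 v).symm)
  have hv : ∫ v in Set.Ioi (0 : ℝ), tcf g z (v + h) = ∫ v in Set.Ioi h, tcf g z v := by
    rw [← integral_indicator measurableSet_Ioi, ← integral_indicator measurableSet_Ioi]
    calc ∫ v, (Set.Ioi (0 : ℝ)).indicator (fun v => tcf g z (v + h)) v
        = ∫ v, (Set.Ioi h).indicator (tcf g z) (v + h) := integral_congr_ae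
          (Eventually.of_forall e1)
      _ = _ := integral_add_right_eq_self _ h
  refine ⟨?_, ?_⟩
  · exact (hi.const_mul (cexp (z * h))).congr (Eventually.of_forall fun v => (tcf_shift g z h v).symm)
  · simp_rw [tcf_shift]
    rw [integral_const_mul, hv]
    congr 1
    have h3 := intervalIntegral.integral_interval_add_Ioi (tcf_Ioi hg hz 0) (tcf_Ioi hg hz h)
    rw [← h3]
    ring

theorem tc_left {g : ℝ → ℝ} (hg : Gr g) {z : ℂ} (hz : z.re < -(5 / 8)) (h : ℝ) :
    IntegrableOn (fun v : ℝ => (g (v + h) : ℂ) * cexp (-(z * v))) (Set.Iio 0) ∧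
    ∫ v in Set.Iio (0 : ℝ), (g (v + h) : ℂ) * cexp (-(z * v)) =
      cexp (z * h) * ((∫ v in Set.Iio (0 : ℝ), tcf g z v) + ∫ u in (0 : ℝ)..h, tcf g z u) := by
  have e1 : ∀ v : ℝ, (Set.Iio (0 : ℝ)).indicator (fun v => tcf g z (v + h)) v =
      (Set.Iio h).indicator (tcf g z) (v + h) := by
    intro v
    by_cases hv : v < 0
    · rw [Set.indicator_of_mem (show v ∈ Set.Iio 0 from hv),
        Set.indicator_of_mem (show v + h ∈ Set.Iio h from by simp only [Set.mem_Iio]; linarith)]
    · rw [Set.indicator_of_notMem (show v ∉ Set.Iio 0 from hv),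
        Set.indicator_of_notMem (show v + h ∉ Set.Iio h from by
          simp only [Set.mem_Iio]; linarith)]
  have hi : IntegrableOn (fun v => tcf g z (v + h)) (Set.Iio 0) := by
    rw [← integrable_indicator_iff measurableSet_Iio]
    have h1 : Integrable ((Set.Iio h).indicator (tcf g z)) :=
      (integrable_indicator_iff measurableSet_Iio).mpr
        ((tcf_Iic hg hz h).mono_set Set.Iio_subset_Iic_self)
    have h2 := h1.comp_add_right h
    exact h2.congr (Eventually.of_forall fun v => (e1 v).symm)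
  have hv : ∫ v in Set.Iio (0 : ℝ), tcf g z (v + h) = ∫ v in Set.Iio h, tcf g z v := by
    rw [← integral_indicator measurableSet_Iio, ← integral_indicator measurableSet_Iio]
    calc ∫ v, (Set.Iio (0 : ℝ)).indicator (fun v => tcf g z (v + h)) v
        = ∫ v, (Set.Iio h).indicator (tcf g z) (v + h) := integral_congr_ae
          (Eventually.of_forall e1)
      _ = _ := integral_add_right_eq_self _ h
  refine ⟨?_, ?_⟩
  · exact (hi.const_mul (cexp (z * h))).congr (Eventually.of_forall fun v => (tcf_shift g z h v).symm)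
  · simp_rw [tcf_shift]
    rw [integral_const_mul, hv]
    congr 1
    have h3 := intervalIntegral.integral_Iic_sub_Iic (tcf_Iic hg hz 0) (tcf_Iic hg hz h)
    rw [← integral_Iic_eq_integral_Iio, ← integral_Iic_eq_integral_Iio, ← h3]
    ring

theorem pf_TC : T_TC := by
  intro J c hJ g H hg
  refine ⟨?_, ?_, ?_⟩
  · obtain ⟨hm, B, hB⟩ := hg
    refine ⟨?_, ∑ a ∈ J, |c a * √a| * (|B| * Real.exp (5 / 8 * |Real.log a|)), fun v => ?_⟩
    · unfold gL
      exact Finset.measurable_fun_sum _ fun a _ =>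
        (hm.comp (measurable_id.add_const _)).const_mul _
    · unfold gL
      rw [Finset.sum_mul]
      refine (Finset.abs_sum_le_sum_abs _ _).trans (Finset.sum_le_sum fun a _ => ?_)
      rw [abs_mul, mul_assoc]
      apply mul_le_mul_of_nonneg_left _ (abs_nonneg _)
      refine (hB _).trans ?_
      have h1 : B * Real.exp (5 / 8 * |v + Real.log a|) ≤
          |B| * Real.exp (5 / 8 * |v + Real.log a|) :=
        mul_le_mul_of_nonneg_right (le_abs_self B) (Real.exp_pos _).le
      refine h1.trans ?_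
      rw [mul_assoc, ← Real.exp_add]
      apply mul_le_mul_of_nonneg_left _ (abs_nonneg _)
      apply Real.exp_le_exp.mpr
      have := abs_add_le v (Real.log a)
      linarith
  · intro z hz hH
    have h1 : ∀ v : ℝ, (gL J c g v : ℂ) * cexp (-(z * v)) =
        ∑ a ∈ J, ((c a * √a : ℝ) : ℂ) * ((g (v + Real.log a) : ℂ) * cexp (-(z * v))) := by
      intro v
      unfold gL
      push_cast
      rw [Finset.sum_mul]
      refine Finset.sum_congr rfl fun a _ => ?_
      ring
    simp_rw [h1]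
    rw [integral_finset_sum _ fun a _ => (tc_right hg hz (Real.log a)).1.const_mul _]
    simp_rw [integral_const_mul]
    unfold HL DL JL
    rw [hH, Finset.sum_mul, ← Finset.sum_sub_distrib]
    refine Finset.sum_congr rfl fun a ha => ?_
    rw [(tc_right hg hz (Real.log a)).2, ← tcf_pow (hJ a ha)]
    unfold tcf
    push_cast
    ring
  · intro z hz hH
    have h1 : ∀ v : ℝ, (gL J c g v : ℂ) * cexp (-(z * v)) =
        ∑ a ∈ J, ((c a * √a : ℝ) : ℂ) * ((g (v + Real.log a) : ℂ) * cexp (-(z * v))) := by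
      intro v
      unfold gL
      push_cast
      rw [Finset.sum_mul]
      refine Finset.sum_congr rfl fun a _ => ?_
      ring
    simp_rw [h1]
    rw [integral_finset_sum _ fun a _ => (tc_left hg hz (Real.log a)).1.const_mul _]
    simp_rw [integral_const_mul]
    unfold HL DL JL
    rw [hH, Finset.sum_mul, ← Finset.sum_sub_distrib, ← Finset.sum_neg_distrib]
    refine Finset.sum_congr rfl fun a ha => ?_
    rw [(tc_left hg hz (Real.log a)).2, ← tcf_pow (hJ a ha)]
    unfold tcf
    push_cast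
    ring

end Pool.Agent.H84.MF
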